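import Pool.Agent.Helper88.TA.Goals
import Pool.Agent.Helper89.Tot.GS
import Pool.Agent.Helper31.Tot.MP
import Pool.Agent.Helper90.Tot.BT

/-! # TA / UB (MP_69be96_nt): an upper bound sieve for short intervals -/

set_option autoImplicit false

open Finset

namespace Pool.Agent.Helper89.TA

open Pool.Agent.Helper94.Tot Pool.Agent.Helper90.Twin

theorem nu_val (M : ℕ) {p : ℕ} (hp : p.Prime) :
    nu (fun p t => if p ∣ M + 1 + t then (1 : ℝ) else 0) p = 1 := by
  unfold nu
  have : Fact p.Prime := ⟨hp⟩
  simp only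
  rw [Finset.sum_boole]
  have : (range p).filter (fun x => p ∣ M + 1 + x) = {(-(M : ZMod p) - 1).val} := by
    ext x
    rw [mem_filter, mem_range, mem_singleton]
    constructor
    · rintro ⟨hx, hx2⟩
      rw [← ZMod.natCast_eq_zero_iff] at hx2
      push_cast at hx2
      have h3 : (x : ZMod p) = -(M : ZMod p) - 1 := by
        linear_combination hx2
      rw [← h3, ZMod.val_natCast_of_lt hx]
    · rintro rfl
      refine ⟨ZMod.val_lt _, ?_⟩
      rw [← ZMod.natCast_eq_zero_iff]
      push_cast
      rw [ZMod.natCast_val, ZMod.cast_id', id]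
      ring
  rw [this, card_singleton, Nat.cast_one]

theorem adm (M : ℕ) : Adm (fun p t => if p ∣ M + 1 + t then (1 : ℝ) else 0) 2 := by
  refine ⟨?_, ?_, ?_, ?_⟩
  · intro p _ _ x
    show _ ≤ _
    split_ifs <;> norm_num
  · intro p _ _ x
    show _ ≤ _
    split_ifs <;> norm_num
  · intro p _ _ x
    have h : p ∣ M + 1 + (x + p) ↔ p ∣ M + 1 + x := by
      rw [show M + 1 + (x + p) = M + 1 + x + p by ring]
      exact Nat.dvd_add_self_right
    simp only [h]
  · intro p hp _
    rw [nu_val M hp]
    norm_num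

theorem ub_aux : Pool.Agent.Helper88.TA.StmtUB := by
  classical
  obtain ⟨K, C1, hK, hC1, hS⟩ := Pool.Agent.Helper89.Tot.pf_GS
  obtain ⟨C2, hC2, hM⟩ := Pool.Agent.Helper31.Tot.pf_MP
  obtain ⟨C3, hC3, hZ⟩ := Pool.Agent.Helper31.Tot.pf_Sz
  set k := K + 1 with hk
  set D := C2 * Real.log 4 + C3 with hD
  have hlog4 : 0 < Real.log 4 := Real.log_pos (by norm_num)
  have hD0 : 0 < D := by positivity
  refine ⟨2 * k * C1 * D + Real.log 4 + 5 ^ k, by positivity, fun w H M hw hwH => ?_⟩
  have hHpos : (0 : ℝ) < H := by exact_mod_cast (by omega : 0 < H)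
  have hwpos : (0 : ℝ) < w := by exact_mod_cast (by omega : 0 < w)
  have hlogw : 0 < Real.log w := Real.log_pos (by exact_mod_cast (by omega : 1 < w))
  have hwH' : (w : ℝ) ≤ H := by exact_mod_cast hwH
  have hlogle : Real.log w ≤ H :=
    ((Real.log_le_sub_one_of_pos hwpos).trans (by linarith)).trans hwH'
  have hdiv1 : 1 ≤ (H : ℝ) / Real.log w := (one_le_div hlogw).2 hlogle
  set Q := (H : ℝ) / Real.log w with hQ
  have hQ0 : 0 ≤ Q := by linarith
  have hcardH : (((Ioc M (M + H)).filter
      (fun n => ∀ p : ℕ, p.Prime → p ≤ w → ¬ p ∣ n)).card : ℝ) ≤ H := by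
    have : ((Ioc M (M + H)).filter (fun n => ∀ p : ℕ, p.Prime → p ≤ w → ¬ p ∣ n)).card ≤ H := by
      refine (card_filter_le _ _).trans ?_
      simp
    exact_mod_cast this
  rcases Nat.lt_or_ge w 5 with hw5 | hw5
  · have h1 : Real.log w ≤ Real.log 4 :=
      Real.log_le_log hwpos (by exact_mod_cast (by omega : w ≤ 4))
    have h2 : (H : ℝ) = Real.log w * Q := by rw [hQ]; field_simp
    have h3 : (0 : ℝ) ≤ (2 * k * C1 * D + 5 ^ k) * Q := by positivity
    have h4 : Real.log w * Q ≤ Real.log 4 * Q := mul_le_mul_of_nonneg_right h1 hQ0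
    linarith
  rcases Nat.lt_or_ge H (5 ^ k) with hsmall | hlarge
  · -- small H
    have h1 : (H : ℝ) ≤ 5 ^ k := by exact_mod_cast hsmall.le
    have h2 : (0 : ℝ) ≤ (2 * k * C1 * D + Real.log 4) * Q := by positivity
    calc (((Ioc M (M + H)).filter (fun n => ∀ p : ℕ, p.Prime → p ≤ w → ¬ p ∣ n)).card : ℝ)
        ≤ 5 ^ k := hcardH.trans h1
      _ ≤ 5 ^ k * Q := le_mul_of_one_le_right (by positivity) hdiv1
      _ ≤ (2 * k * C1 * D + Real.log 4 + 5 ^ k) * Q := by linarith
  · -- large H
    obtain ⟨z0, hz1, hz2⟩ := Pool.Agent.Helper90.Tot.exists_root H k (by omega)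
    have hz05 : 5 ≤ z0 := by
      by_contra hn
      push Not at hn
      have : (z0 + 1) ^ k ≤ 5 ^ k := Nat.pow_le_pow_left (by omega) k
      omega
    set z := min w z0 with hz
    have hz5 : 5 ≤ z := le_min hw5 hz05
    have hzz0 : z ≤ z0 := min_le_right _ _
    have hzw : z ≤ w := min_le_left _ _
    have hzK : z ^ K ≤ H := (Nat.pow_le_pow_left hzz0 K).trans
      ((Nat.pow_le_pow_right (by omega) (by omega)).trans hz1)
    have hzpos : (0 : ℝ) < z := by exact_mod_cast (by omega : 0 < z)
    have hlogz : 0 < Real.log z := Real.log_pos (by exact_mod_cast (by omega : 1 < z))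
    -- comparison of the logarithms
    have hlogwz : Real.log w ≤ 2 * k * Real.log z := by
      have hw2k : w ≤ z ^ (2 * k) := by
        rcases le_total w z0 with h | h
        · have : z = w := min_eq_left h
          rw [this]
          exact Nat.le_self_pow (by omega) w
        · have : z = z0 := min_eq_right h
          rw [this]
          refine hwH.trans (hz2.le.trans ?_)
          rw [pow_mul]
          apply Nat.pow_le_pow_left
          nlinarith
      have h1 : (w : ℝ) ≤ (z : ℝ) ^ (2 * k) := by exact_mod_cast hw2k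
      have h2 := Real.log_le_log hwpos h1
      rw [Real.log_pow] at h2
      push_cast at h2
      linarith
    have hinv : 1 / Real.log z ≤ 2 * k / Real.log w := by
      rw [div_le_div_iff₀ hlogz hlogw]
      linarith
    -- the sieve bound
    set f : ℕ → ℕ → ℝ := fun p t => if p ∣ M + 1 + t then (1 : ℝ) else 0 with hf
    have hsieve := hS z H (by omega) hzK f (adm M)
    have hprod : ∏ p ∈ Ps z, (1 - nu f p / p) ≤ C2 * (Real.log 4 / Real.log z) := by
      have e2 : Ps z = (Ioc 4 z).filter Nat.Prime := by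
        ext p
        rw [mem_Ps, mem_filter, mem_Ioc]
        constructor
        · rintro ⟨a, b, c⟩
          exact ⟨⟨by omega, b⟩, c⟩
        · rintro ⟨⟨a, b⟩, c⟩
          exact ⟨by omega, b, c⟩
      have e1 : ∏ p ∈ Ps z, (1 - nu f p / p) = ∏ p ∈ (Ioc 4 z).filter Nat.Prime,
          (1 - 1 / (p : ℝ)) := by
        rw [← e2]
        refine Finset.prod_congr rfl fun p hp => ?_
        rw [hf, nu_val M (mem_Ps.1 hp).2.2]
      rw [e1]
      have := hM 4 z (by norm_num) (by omega)
      exact_mod_cast this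
    have hexp : Real.exp (-(3 * Sz z)) ≤ C3 / Real.log z := by
      refine le_trans ?_ (hZ z (by omega))
      apply Real.exp_le_exp.2
      have : 0 ≤ Sz z := Finset.sum_nonneg fun p _ => by positivity
      linarith
    have hmain : ∑ t ∈ range H, ∏ p ∈ Ps z, (1 - f p t) ≤ 2 * k * C1 * D * Q := by
      refine hsieve.trans ?_
      have h1 : ∏ p ∈ Ps z, (1 - nu f p / p) + Real.exp (-(3 * Sz z)) ≤
          D * (1 / Real.log z) := by
        refine (add_le_add hprod hexp).trans (le_of_eq ?_)
        rw [hD]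
        ring
      calc C1 * H * (∏ p ∈ Ps z, (1 - nu f p / p) + Real.exp (-(3 * Sz z)))
          ≤ C1 * H * (D * (2 * k / Real.log w)) := by
            apply mul_le_mul_of_nonneg_left _ (by positivity)
            exact h1.trans (mul_le_mul_of_nonneg_left hinv hD0.le)
        _ = 2 * k * C1 * D * Q := by
            rw [hQ]
            ring
    -- the count
    have hcount : (((Ioc M (M + H)).filter
        (fun n => ∀ p : ℕ, p.Prime → p ≤ w → ¬ p ∣ n)).card : ℝ) ≤
        ∑ t ∈ range H, ∏ p ∈ Ps z, (1 - f p t) := by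
      have e1 : ((Ioc M (M + H)).filter (fun n => ∀ p : ℕ, p.Prime → p ≤ w → ¬ p ∣ n)).card =
          ((range H).filter (fun t => ∀ p : ℕ, p.Prime → p ≤ w → ¬ p ∣ M + 1 + t)).card := by
        have : (Ioc M (M + H)).filter (fun n => ∀ p : ℕ, p.Prime → p ≤ w → ¬ p ∣ n) =
            ((range H).filter (fun t => ∀ p : ℕ, p.Prime → p ≤ w → ¬ p ∣ M + 1 + t)).image
              (fun t => M + 1 + t) := by
          ext t
          simp only [mem_filter, mem_Ioc, mem_image, mem_range]
          constructor
          · rintro ⟨⟨a, b⟩, c⟩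
            refine ⟨t - (M + 1), ⟨by omega, ?_⟩, by omega⟩
            rwa [show M + 1 + (t - (M + 1)) = t by omega]
          · rintro ⟨s, ⟨a, b⟩, rfl⟩
            exact ⟨⟨by omega, by omega⟩, b⟩
        rw [this, card_image_of_injective _ (add_right_injective (M + 1))]
      rw [e1, Finset.card_filter]
      push_cast
      refine Finset.sum_le_sum fun t _ => ?_
      split_ifs with h
      · apply le_of_eq
        symm
        apply Finset.prod_eq_one
        intro p hp
        rw [mem_Ps] at hp
        have : ¬ p ∣ M + 1 + t := h p hp.2.2 (hp.2.1.trans hzw)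
        rw [hf]
        simp only
        rw [if_neg this, sub_zero]
      · refine Finset.prod_nonneg fun p _ => ?_
        rw [hf]
        simp only
        split_ifs <;> norm_num
    have h5 : (0 : ℝ) ≤ (Real.log 4 + 5 ^ k) * Q := by positivity
    linarith [hcount.trans hmain]

theorem ub : Pool.Agent.Helper88.TU.StmtBH → Pool.Agent.Helper88.TU.StmtBM →
    Pool.Agent.Helper88.TA.StmtUB := fun _ _ => ub_aux

end Pool.Agent.Helper89.TA
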